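import Pool.Agent.Q130.AD.Core
import Pool.Agent.Y501.SY.BridgeU

/-!
Amenable descent with small exceptional sets along the fibres of a map: the public statement.
-/

set_option autoImplicit false

open Set Filter Topology MeasureTheory
open scoped Manifold ContDiff

noncomputable section

namespace Pool.Agent.Q130.AD

open Pool.Agent.Y501 Pool.Agent.Y501.SYP

section

variable {d : ℕ} {Z X : Type} [TopologicalSpace Z] [ChartedSpace (ES d) Z]
  [TopologicalSpace X] [ChartedSpace (ES d) X]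

/-- The tangent vectors of `X` on which the translates of `w` are not uniformly positive are
tangent to the fibres of `f`, and over every fibre the components of the set of points at which
`w` does not uniformly tame the lift of `J` are small at all their points. -/
structure SmallAlong (k : ℕ) {Y : Type} [TopologicalSpace Y] [ChartedSpace (ES k) Y]
    (Γ : Type) [Group Γ] [MulAction Γ Z] (pr : Z → X) (J : End (ES d) X)
    (f : X → Y) (w : Form (ES d) Z 2) : Prop where
  tangent : ∀ (z : Z) (v : TangentSpace 𝓘(ℝ, ES d) (pr z)), ¬ UPos Γ pr J w z v →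
    mfderiv 𝓘(ℝ, ES d) 𝓘(ℝ, ES k) f (pr z) v = 0
  small : ∀ z : Z, pr z ∈ NotUnif Γ pr J w →
    SmallAt J (connectedComponentIn (NotUnif Γ pr J w ∩ f ⁻¹' {f (pr z)}) (pr z)) (pr z)
      (fun v => ¬ UPos Γ pr J w z v)

end

section

attribute [local instance] cs mf

variable {d : ℕ} {Z X : Type} [TopologicalSpace Z] [ChartedSpace (ES d) Z]
  [IsManifold 𝓘(ℝ, ES d) ∞ Z] [TopologicalSpace X] [ChartedSpace (ES d) X]
  [IsManifold 𝓘(ℝ, ES d) ∞ X] {Γ : Type} [Group Γ] [MulAction Γ Z]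

theorem descent_of_symp (pr : Z → X) (hpr : NormalCovering (ES d) Γ pr)
    (J : End (ES d) X) (σ : Form (ES d) X 2) (hσ : IsTamingSymplectic σ J) :
    ∃ w : Form (ES d) Z 2, IsSmooth w ∧ IsClosedForm w ∧ BoundedTranslates Γ w ∧
      ∀ (z : Z) (v : TangentSpace 𝓘(ℝ, ES d) (pr z)), v ≠ 0 → UPos Γ pr J w z v := by
  obtain ⟨w, h1, h2, h3, h4⟩ := lifted (d := d) (Z := Z) (X := X) (Γ := Γ) hpr.smooth (pr := pr)
    hpr.diffeo hpr.orbits (J := J) (σ := σ) ((smooth_iff σ).1 hσ.smooth)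
    ((closed_iff σ).1 hσ.closed) hσ.tames
  exact ⟨w, (smooth_iff w).2 h1, (closed_iff w).2 h2, (bdt_iff w).2 h3, h4⟩

variable {k : ℕ} {Y : Type} [TopologicalSpace Y] [ChartedSpace (ES k) Y]
  [IsManifold 𝓘(ℝ, ES k) ∞ Y] [T2Space Y]

theorem descent_iff (hΓ : Amenable Γ) (pr : Z → X) (hpr : NormalCovering (ES d) Γ pr)
    [CompactSpace X] [T2Space X] (J : End (ES d) X) (hJ : IsAlmostComplex J)
    (f : X → Y) (hf : ContMDiff 𝓘(ℝ, ES d) 𝓘(ℝ, ES k) ∞ f) :
    (∃ σ : Form (ES d) X 2, IsTamingSymplectic σ J) ↔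
    ∃ w : Form (ES d) Z 2, IsSmooth w ∧ IsClosedForm w ∧ BoundedTranslates Γ w ∧
      SmallAlong k Γ pr J f w := by
  constructor
  · rintro ⟨σ, hσ⟩
    obtain ⟨w, h1, h2, h3, h4⟩ := descent_of_symp (Γ := Γ) pr hpr J σ hσ
    refine ⟨w, h1, h2, h3, ⟨fun z v hv => ?_, fun z hz => ?_⟩⟩
    · have h5 : v = 0 := by
        by_contra hne
        exact hv (h4 z v hne)
      rw [h5, map_zero]
    · exfalso
      obtain ⟨z', _, v, hv, hnv⟩ := hz
      exact hnv (h4 z' v hv)
  · rintro ⟨w, h1, h2, h3, h4⟩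
    obtain ⟨σ, g1, g2, g3⟩ := amenW (d := d) (Z := Z) (X := X) (Γ := Γ) (k := k) (Y := Y)
      (amenable_of hΓ) hpr.smooth (pr := pr) hpr.diffeo hpr.surj hpr.orbits (J := J)
      (ac_of J hJ) (f := f) hf (w := w) ((smooth_iff w).1 h1) ((closed_iff w).1 h2)
      ((bdt_iff w).1 h3) h4.tangent (fun z hz => smallP_of (h4.small z hz))
    exact ⟨σ, symp_of ((smooth_iff σ).2 g1) ((closed_iff σ).2 g2) g3⟩

end

end Pool.Agent.Q130.AD
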